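import Pool.Agent.W770.PC.Stms

set_option autoImplicit false

open MeasureTheory Set Filter Topology
open scoped ENNReal NNReal

namespace Pool.Agent.W54.PC

open Pool.Agent.W770.PC

theorem ee_add (u v : ℝ) : ee u * ee v = ee (u + v) := by
  unfold ee
  rw [← Complex.exp_add]
  congr 1
  push_cast
  ring

theorem cont_ee : Continuous ee := by
  unfold ee
  fun_prop

theorem integr (h5 : S_gg) (B : ℝ) (ψ : ℝ × ℝ → ℂ) (F h : ℝ × ℝ → ℝ) (hψ : Amp B ψ)
    (C : ℝ) (hT : Tame C F h) (t : ℝ) (a : ℕ) (k : ℕ × ℕ) (x : ℝ × ℝ) :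
    Integrable (fun y : ℝ × ℝ => ψ y * ((gg (ph F h t) a y * bet a k y : ℝ) : ℂ) *
      ee (ph F h t y + x.1 * y.1 + x.2 * y.2)) := by
  have cψ : Continuous ψ := hψ.sm.continuous
  have cb : Continuous (bet a k) := (h5.1 a k).continuous
  have cg : Continuous (gg (ph F h t) a) := (h5.2.1 (ph F h t) a).continuous
  have cF : Continuous F := hT.smF.continuous
  have ch : Continuous h := hT.smh.continuous
  have cph : Continuous (ph F h t) := by
    unfold ph
    exact cF.add (continuous_const.mul ch)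
  have ce : Continuous (fun y : ℝ × ℝ => ee (ph F h t y + x.1 * y.1 + x.2 * y.2)) :=
    cont_ee.comp ((cph.add (continuous_const.mul continuous_fst)).add
      (continuous_const.mul continuous_snd))
  have hc : Continuous (fun y : ℝ × ℝ => ψ y * ((gg (ph F h t) a y * bet a k y : ℝ) : ℂ) *
      ee (ph F h t y + x.1 * y.1 + x.2 * y.2)) :=
    (cψ.mul (Complex.continuous_ofReal.comp (cg.mul cb))).mul ce
  have hSq : IsCompact Sq := isCompact_Icc.prod isCompact_Icc
  refine hc.integrable_of_hasCompactSupport (HasCompactSupport.intro hSq ?_)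
  intro y hy
  rw [hψ.supp y hy, zero_mul, zero_mul]

theorem decomp_thm (h1 : S_part) (h2 : S_van) (h3 : S_cls) (h4 : S_term) (h5 : S_gg)
    (_h6 : S_der) : S_decomp := by
  intro C
  obtain ⟨c, hc⟩ := h3 C
  refine ⟨c, ?_⟩
  intro B ψ F h hψ hT T
  obtain ⟨A₀, hA₀⟩ := h4 F h hT.smF hT.smh T
  refine ⟨A₀, ?_⟩
  intro A hA t ht x
  have hpt : ∀ y : ℝ × ℝ, ψ y * ee (F y) * ee (x.1 * y.1 + x.2 * y.2 + t * h y) =
      ∑ a ∈ Finset.range (A + 1), ∑ k ∈ FL (ph F h t) a,
        ψ y * ((gg (ph F h t) a y * bet a k y : ℝ) : ℂ) *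
          ee (ph F h t y + x.1 * y.1 + x.2 * y.2) := by
    intro y
    have e1 : ee (F y) * ee (x.1 * y.1 + x.2 * y.2 + t * h y) =
        ee (ph F h t y + x.1 * y.1 + x.2 * y.2) := by
      rw [ee_add]
      congr 1
      unfold ph
      ring
    rw [mul_assoc, e1]
    by_cases hy : y ∈ Sq
    · have e2 := h1.2.2.2 (ph F h t) (A + 1) y hy
      rw [hA₀ (A + 1) (by omega) t ht y, add_zero] at e2
      have e3 : ∑ a ∈ Finset.range (A + 1), ∑ k ∈ FL (ph F h t) a,
        ψ y * ((gg (ph F h t) a y * bet a k y : ℝ) : ℂ) *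
          ee (ph F h t y + x.1 * y.1 + x.2 * y.2) =
          ((∑ a ∈ Finset.range (A + 1), ∑ k ∈ FL (ph F h t) a,
            gg (ph F h t) a y * bet a k y : ℝ) : ℂ) *
            (ψ y * ee (ph F h t y + x.1 * y.1 + x.2 * y.2)) := by
        rw [Complex.ofReal_sum, Finset.sum_mul]
        refine Finset.sum_congr rfl (fun a _ => ?_)
        rw [Complex.ofReal_sum, Finset.sum_mul]
        refine Finset.sum_congr rfl (fun k _ => ?_)
        ring
      rw [e3, e2, Complex.ofReal_one, one_mul]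
    · rw [hψ.supp y hy, zero_mul]
      symm
      refine Finset.sum_eq_zero (fun a _ => Finset.sum_eq_zero (fun k _ => ?_))
      rw [zero_mul, zero_mul]
  have hE : EE h (fun y => ψ y * ee (F y)) x t =
      ∑ a ∈ Finset.range (A + 1), ∑ k ∈ FL (ph F h t) a, J ψ (ph F h t) a k x := by
    unfold EE
    have e4 : (fun y : ℝ × ℝ => ψ y * ee (F y) * ee (x.1 * y.1 + x.2 * y.2 + t * h y)) =
        fun y => ∑ a ∈ Finset.range (A + 1), ∑ k ∈ FL (ph F h t) a,
          ψ y * ((gg (ph F h t) a y * bet a k y : ℝ) : ℂ) *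
            ee (ph F h t y + x.1 * y.1 + x.2 * y.2) := funext hpt
    rw [e4, integral_finsetSum _ (fun a _ => integrable_finsetSum _ (fun k _ =>
      integr h5 B ψ F h hψ C hT t a k x))]
    refine Finset.sum_congr rfl (fun a _ => ?_)
    rw [integral_finsetSum _ (fun k _ => integr h5 B ψ F h hψ C hT t a k x)]
    rfl
  rw [hE, Finset.sum_range_succ', add_comm]
  congr 1
  refine Finset.sum_congr rfl (fun a _ => ?_)
  have e5 := hc F h hT t (a + 1) (fun k => J ψ (ph F h t) (a + 1) k x)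
    (fun k hk hlt => h2 C B ψ F h hψ hT t a k hk hlt x)
  exact e5.symm

end Pool.Agent.W54.PC
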